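import Pool.Agent.ABCP.Stmts

/-!
# ABCP, row CPX: existence of the cap
-/

set_option autoImplicit false

namespace Pool.Agent.ABCP.H17

open Matrix Polynomial
open Pool.Agent.ABC3 (HasDeg HomV)

variable {K B : Type} [Field K] [Fintype B] [DecidableEq B]

/-- Fitting: a power of `v` is divisible by its square in `K[v]`. -/
theorem fitting (v : Matrix B B K) : ∃ (n : ℕ) (a : K[X]), 1 ≤ n ∧
    v ^ n = v ^ n * v ^ n * aeval v a := by
  have hint : IsIntegral K v := IsIntegral.of_finite K v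
  obtain ⟨p, hp⟩ : ∃ p, p = minpoly K v := ⟨_, rfl⟩
  have hp0 : p ≠ 0 := by
    rw [hp]
    exact minpoly.ne_zero hint
  have hpv : aeval v p = 0 := by
    rw [hp]
    exact minpoly.aeval K v
  obtain ⟨g, hg, hnd⟩ := Polynomial.exists_eq_pow_rootMultiplicity_mul_and_not_dvd p hp0 0
  obtain ⟨k, hk⟩ : ∃ k, k = p.rootMultiplicity 0 := ⟨_, rfl⟩
  rw [← hk, map_zero, sub_zero] at hg
  rw [map_zero, sub_zero] at hnd
  have hcop : IsCoprime (X ^ (k + 1)) g :=
    ((Polynomial.irreducible_X (R := K)).coprime_iff_not_dvd.2 hnd).pow_left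
  obtain ⟨a, b, hab⟩ := hcop
  refine ⟨k + 1, a, by omega, ?_⟩
  have h1 : (X : K[X]) ^ (k + 1) = X ^ (k + 1) * X ^ (k + 1) * a + b * X * p := by
    have h2 : (X : K[X]) ^ (k + 1) = X ^ (k + 1) * (a * X ^ (k + 1) + b * g) := by
      rw [hab, mul_one]
    calc (X : K[X]) ^ (k + 1) = X ^ (k + 1) * (a * X ^ (k + 1) + b * g) := h2
      _ = X ^ (k + 1) * X ^ (k + 1) * a + b * X * (X ^ k * g) := by ring
      _ = _ := by rw [← hg]
  have h3 := congrArg (aeval v) h1
  rw [map_add, map_mul, map_mul, map_mul, map_mul, map_pow, aeval_X, hpv, mul_zero, add_zero] at h3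
  exact h3

theorem range_eq_of_rank {e π : Matrix B B K} (hπ : π * π = π) (h1 : e * π = π)
    (hr : e.rank ≤ π.rank) : π * e = e := by
  have h2 : LinearMap.range π.mulVecLin ≤ LinearMap.range e.mulVecLin := by
    rintro _ ⟨x, rfl⟩
    refine ⟨π.mulVec x, ?_⟩
    rw [Matrix.mulVecLin_apply, Matrix.mulVecLin_apply, Matrix.mulVec_mulVec, h1]
  have h3 : LinearMap.range π.mulVecLin = LinearMap.range e.mulVecLin :=
    Submodule.eq_of_le_of_finrank_le h2 hr
  apply Matrix.ext_of_mulVec_single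
  intro i
  have h4 : e.mulVec (Pi.single i 1) ∈ LinearMap.range π.mulVecLin := by
    rw [h3]
    exact ⟨_, rfl⟩
  obtain ⟨y, hy⟩ := h4
  rw [Matrix.mulVecLin_apply] at hy
  rw [← Matrix.mulVec_mulVec, ← hy, Matrix.mulVec_mulVec, hπ]

/-- the abstract form -/
theorem cap_abs (A : Subalgebra K (Matrix B B K)) (I : Matrix B B K → Prop) (h0 : I 0)
    (hadd : ∀ f g, I f → I g → I (f + g)) (hl : ∀ f h, I f → h ∈ A → I (h * f))
    (hr : ∀ f h, I f → h ∈ A → I (f * h)) :
    ∃ e : Matrix B B K, e * e = e ∧ e ∈ A ∧ I (1 - e) ∧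
      ∀ f, f ∈ A → I (1 - f) → ∃ α β : Matrix B B K, α ∈ A ∧ β ∈ A ∧ α * f * β = e := by
  classical
  have hex : ∃ r : ℕ, ∃ e : Matrix B B K, e * e = e ∧ e ∈ A ∧ I (1 - e) ∧ e.rank = r :=
    ⟨_, 1, mul_one 1, A.one_mem, by rw [sub_self]; exact h0, rfl⟩
  obtain ⟨e, he, heA, heI, her⟩ := Nat.find_spec hex
  refine ⟨e, he, heA, heI, fun f hfA hfI => ?_⟩
  obtain ⟨v, hv⟩ : ∃ v, v = e * f * e := ⟨_, rfl⟩
  have hvA : v ∈ A := by
    rw [hv]
    exact A.mul_mem (A.mul_mem heA hfA) heA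
  have hev : e * v = v := by
    rw [hv, ← mul_assoc, ← mul_assoc, he]
  have hve : v * e = v := by
    rw [hv, mul_assoc, he]
  have hvI : I (e - v) := by
    have h1 : e - v = e * (1 - f) * e := by
      rw [hv, mul_sub, mul_one, sub_mul, he]
    rw [h1]
    exact hr _ _ (hl _ _ hfI heA) heA
  obtain ⟨n, a, hn, hna⟩ := fitting v
  obtain ⟨m, rfl⟩ : ∃ m, n = m + 1 := ⟨n - 1, by omega⟩
  obtain ⟨c, hc⟩ : ∃ c, c = aeval v a := ⟨_, rfl⟩
  rw [← hc] at hna
  have hcA : c ∈ A := by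
    have h1 : c = ((aeval (⟨v, hvA⟩ : A) a : A) : Matrix B B K) := by
      rw [hc]
      exact (Polynomial.aeval_subalgebra_coe a A ⟨v, hvA⟩).symm
    rw [h1]
    exact (aeval (⟨v, hvA⟩ : A) a : A).2
  have hcv : Commute c v := by
    have h1 := (Commute.all a X).map (aeval v)
    rwa [aeval_X, ← hc] at h1
  have hcn : Commute c (v ^ (m + 1)) := hcv.pow_right (m + 1)
  have hen : e * v ^ (m + 1) = v ^ (m + 1) := by
    rw [pow_succ', ← mul_assoc, hev]
  have hne : v ^ (m + 1) * e = v ^ (m + 1) := by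
    rw [pow_succ, mul_assoc, hve]
  obtain ⟨π, hπd⟩ : ∃ π, π = v ^ (m + 1) * c := ⟨_, rfl⟩
  have hnπ : v ^ (m + 1) * π = v ^ (m + 1) := by
    rw [hπd, ← mul_assoc, ← hna]
  have hππ : π * π = π := by
    calc π * π = v ^ (m + 1) * c * π := by rw [← hπd]
      _ = c * v ^ (m + 1) * π := by rw [hcn.eq]
      _ = c * (v ^ (m + 1) * π) := mul_assoc _ _ _
      _ = c * v ^ (m + 1) := by rw [hnπ]
      _ = v ^ (m + 1) * c := hcn.eq
      _ = π := hπd.symm
  have heπ : e * π = π := by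
    rw [hπd, ← mul_assoc, hen]
  have hπe : π * e = π := by
    rw [hπd, ← hcn.eq, mul_assoc, hne]
  have hπA : π ∈ A := by
    rw [hπd]
    exact A.mul_mem (A.pow_mem hvA _) hcA
  -- `e - v ^ n` is in the ideal
  have hpow : ∀ k : ℕ, I (e - v ^ (k + 1)) := by
    intro k
    induction k with
    | zero =>
      rw [zero_add, pow_one]
      exact hvI
    | succ k ih =>
      have h1 : e - v ^ (k + 1 + 1) = (e - v) + (e - v ^ (k + 1)) * v := by
        rw [sub_mul, hev, ← pow_succ]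
        abel
      rw [h1]
      exact hadd _ _ hvI (hr _ _ ih hvA)
  have hI : I (1 - π) := by
    have h1 : e - π = (e - v ^ (m + 1)) * (e - π) := by
      rw [sub_mul, mul_sub, mul_sub, he, heπ, hne, hnπ, sub_self, sub_zero]
    have h2 : I (e - π) := by
      rw [h1]
      exact hr _ _ (hpow m) (A.sub_mem heA hπA)
    have h3 : 1 - π = (1 - e) + (e - π) := by abel
    rw [h3]
    exact hadd _ _ heI h2
  have hrank : e.rank ≤ π.rank := by
    rw [her]
    exact Nat.find_min' hex ⟨π, hππ, hπA, hI, rfl⟩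
  have hfin : π = e := by
    rw [← hπe]
    exact range_eq_of_rank hππ heπ hrank
  refine ⟨e, e * (v ^ m * c), heA, A.mul_mem heA (A.mul_mem (A.pow_mem hvA _) hcA), ?_⟩
  calc e * f * (e * (v ^ m * c)) = (e * f * e) * (v ^ m * c) := by simp only [mul_assoc]
    _ = v ^ (m + 1) * c := by rw [← hv, ← mul_assoc, ← pow_succ']
    _ = e := by rw [← hπd, hfin]

section sys

variable {p : ℕ} {Q : Type} [AddCommGroup Q] [Module K Q]

theorem hasDeg_mul {deg : B → ℤ} {M N : Matrix B B K} (hM : HasDeg deg 0 M)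
    (hN : HasDeg deg 0 N) : HasDeg deg 0 (M * N) := by
  intro s s' h
  rw [Matrix.mul_apply] at h
  obtain ⟨j, _, hj⟩ := Finset.exists_ne_zero_of_sum_ne_zero h
  have h1 := hM s j (left_ne_zero_of_mul hj)
  have h2 := hN j s' (right_ne_zero_of_mul hj)
  rw [h1, h2]
  ring

/-- the algebra of the endomorphisms of degree `0` -/
def endA (S : Sys p K Q B) : Subalgebra K (Matrix B B K) where
  carrier := {M | End0 S M}
  mul_mem' := by
    rintro M N ⟨hM, hM'⟩ ⟨hN, hN'⟩
    refine ⟨hasDeg_mul hM hN, fun x hx => ?_⟩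
    rw [← mul_assoc, hM' x hx, mul_assoc, hN' x hx, mul_assoc]
  add_mem' := by
    rintro M N ⟨hM, hM'⟩ ⟨hN, hN'⟩
    refine ⟨fun s s' h => ?_, fun x hx => by rw [mul_add, add_mul, hM' x hx, hN' x hx]⟩
    by_cases h1 : M s s' = 0
    · exact hN s s' (fun h2 => h (by rw [Matrix.add_apply, h1, h2, add_zero]))
    · exact hM s s' h1
  algebraMap_mem' := by
    intro r
    refine ⟨fun s s' h => ?_, fun x _ => (Algebra.commutes r (S.act x)).symm⟩
    rw [Matrix.algebraMap_matrix_apply] at h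
    by_cases h1 : s = s'
    · rw [h1, add_zero]
    · rw [if_neg h1] at h
      exact absurd rfl h

theorem mem_endA (S : Sys p K Q B) (M : Matrix B B K) : M ∈ endA S ↔ End0 S M := Iff.rfl

end sys

/-- CPX. -/
theorem cpx (idl : IDLStmt) : CPXStmt := by
  intro p _ K Q B _ _ _ _ _ _ S ι _ ev _
  obtain ⟨h1, h2, h3, _, _⟩ := idl p K Q B S ι ev
  obtain ⟨e, he, heA, heI, hmin⟩ := cap_abs (endA S) (fun f => IsTr S ev f) h1 h2
    (fun f h hf hh => (h3 f h hf hh).1) (fun f h hf hh => (h3 f h hf hh).2)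
  exact ⟨e, he, heA, heI, hmin⟩

end Pool.Agent.ABCP.H17
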